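import Pool.Agent.Helper61.QE.St3

/-! Project QD part E, module SEP (separation). -/

open MeasureTheory Set Filter Topology Complex
open scoped ContDiff ComplexConjugate ENNReal

namespace Pool.Agent.Helper62.QE

open Pool.Agent.Helper68.QC Pool.Agent.Helper61.QE

lemma open_image {P : ℂ → ℂ} (hP : DifferentiableOn ℂ P D) (hi : InjOn P D) {s : Set ℂ}
    (hs : s ⊆ D) (ho : IsOpen s) : IsOpen (P '' s) := by
  have h1 : AnalyticOnNhd ℂ P D := hP.analyticOnNhd Metric.isOpen_ball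
  have h2 : IsPreconnected D := (convex_ball (0 : ℂ) 1).isPreconnected
  rcases h1.is_constant_or_isOpen h2 with ⟨w, hw⟩ | h
  · exfalso
    have a0 : (0 : ℂ) ∈ D := by simp [D]
    have a1 : (1 / 2 : ℂ) ∈ D := by
      simp only [D, Metric.mem_ball, dist_zero_right]
      norm_num
    have := hi a0 a1 ((hw 0 a0).trans (hw _ a1).symm)
    norm_num at this
  · exact h s hs ho

theorem pSEP : Pool.Agent.Helper61.QE.StSEP := by
  intro P hP hi r r' hr hrr hr1
  have hsub : Metric.closedBall (0 : ℂ) r ⊆ D := by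
    intro z hz
    rw [Metric.mem_closedBall, dist_zero_right] at hz
    simp only [D, Metric.mem_ball, dist_zero_right]
    linarith
  have hcomp : IsCompact (P '' Metric.closedBall (0 : ℂ) r) :=
    (isCompact_closedBall _ _).image_of_continuousOn (hP.continuousOn.mono hsub)
  have hball : Metric.ball (0 : ℂ) r' ⊆ D := Metric.ball_subset_ball hr1.le
  have hopen : IsOpen (P '' Metric.ball (0 : ℂ) r') := open_image hP hi hball Metric.isOpen_ball
  have hss : P '' Metric.closedBall (0 : ℂ) r ⊆ P '' Metric.ball (0 : ℂ) r' :=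
    image_mono (Metric.closedBall_subset_ball hrr)
  obtain ⟨δ, hδ, hth⟩ := hcomp.exists_thickening_subset_open hopen hss
  have hsep : ∀ w, ‖w‖ ≤ r → ∀ v ∈ D, r' ≤ ‖v‖ → δ ≤ ‖P v - P w‖ := by
    intro w hw v hv hvr
    by_contra hlt
    push Not at hlt
    have h1 : P v ∈ Metric.thickening δ (P '' Metric.closedBall (0 : ℂ) r) := by
      rw [Metric.mem_thickening_iff]
      refine ⟨P w, ⟨w, by simpa using hw, rfl⟩, ?_⟩
      rw [dist_eq_norm]
      exact hlt
    obtain ⟨u, hu, huv⟩ := hth h1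
    have h2 := hi (hball hu) hv huv
    rw [h2, Metric.mem_ball, dist_zero_right] at hu
    linarith
  obtain ⟨K0, hK0⟩ := (isCompact_closedBall (0 : ℂ) r).exists_bound_of_continuousOn
    (hP.continuousOn.mono hsub)
  obtain ⟨K, hK⟩ : ∃ K, K = max K0 0 := ⟨_, rfl⟩
  have hKn : 0 ≤ K := by rw [hK]; exact le_max_right _ _
  have hKb : ∀ w, ‖w‖ ≤ r → ‖P w‖ ≤ K := by
    intro w hw
    rw [hK]
    exact (hK0 w (by simpa using hw)).trans (le_max_left _ _)
  refine ⟨2 * K ^ 2 / δ + 2 * K + 1, by positivity, fun w hw v hv hvr => ?_⟩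
  have h1 := hsep w hw v hv hvr
  have h2 := hKb w hw
  rw [norm_mul]
  have h3 : 0 ≤ ‖P v - P w‖ := norm_nonneg _
  have h4 : ‖P v‖ ≤ ‖P v - P w‖ + ‖P w‖ := by
    have := norm_add_le (P v - P w) (P w)
    rwa [sub_add_cancel] at this
  have hKd : 0 ≤ 2 * K ^ 2 / δ := by positivity
  rcases le_or_gt ‖P v‖ (2 * K) with h5 | h5
  · have h6 : ‖P w‖ * ‖P v‖ ≤ K * (2 * K) := mul_le_mul h2 h5 (norm_nonneg _) hKn
    have h7 : 2 * K ^ 2 / δ * δ = 2 * K ^ 2 := div_mul_cancel₀ _ hδ.ne'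
    have h8 : 2 * K ^ 2 / δ * δ ≤ 2 * K ^ 2 / δ * ‖P v - P w‖ := mul_le_mul_of_nonneg_left h1 hKd
    nlinarith [mul_nonneg hKn h3]
  · have h6 : ‖P v‖ ≤ 2 * ‖P v - P w‖ := by linarith
    have h7 : ‖P w‖ * ‖P v‖ ≤ K * (2 * ‖P v - P w‖) := mul_le_mul h2 h6 (norm_nonneg _) hKn
    nlinarith [mul_nonneg hKd h3]

end Pool.Agent.Helper62.QE
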